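import Mathlib

/-!
# Control functionals for vector capacities with values in a Banach lattice

Let `E` be a Banach lattice with order continuous norm. For every vector capacity `μ` with values
in `E` there is a positive functional `x*` on `E` such that `μ` is absolutely continuous with
respect to the capacity `x* ∘ μ`.

Proof. Put `e = μ X`. We show that for every `ε > 0` there are a positive functional `f` and `δ > 0`
such that `0 ≤ x ≤ e` and `f x < δ` imply `‖x‖ < ε`. Otherwise there are `x_n ∈ [0, e]` with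
`‖x_n‖ ≥ ε` and positive functionals `f_n` of norm at most one with `f_n x_n = ‖x_n‖` and
`f_i x_n ≤ 2 ^ (-n)` for `i < n`. The elements `y_n = sup_{m ≥ n} x_m` exist and decrease to some
`y ≥ 0`, `f_i y = 0` for all `i`, and `ε ≤ f_n x_n ≤ f_n (y_n - y) ≤ ‖y_n - y‖ → 0`, a contradiction.
A convergent positive series of multiples of the functionals for `ε = 1, 1/2, 1/3, ...` is the
functional that we look for.
-/

set_option autoImplicit false
set_option linter.unusedSectionVars false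

open Set Filter Topology

namespace Pool.Agent.Results.MP_e24518_an.ControlFunctionalH32

universe u v

/-- The norm of the Banach lattice `E` is order continuous: every monotone (increasing or
decreasing), order bounded sequence converges in norm. -/
def OrderContinuousNorm (E : Type v) [NormedAddCommGroup E] [Lattice E] : Prop :=
  ∀ x : ℕ → E, (Monotone x ∨ Antitone x) → BddAbove (range x) → BddBelow (range x) →
    ∃ l, Tendsto x atTop (𝓝 l)

/-- A vector capacity: `μ` is a map from the measurable sets to `E_+` (its values at nonmeasurable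
sets are irrelevant) with `μ ∅ = 0` and `μ A ≤ μ B` for `A ⊆ B`. For `E = ℝ` this is a capacity. -/
structure IsCapacity {X : Type u} [MeasurableSpace X] {E : Type v} [AddCommGroup E] [Lattice E]
    (μ : Set X → E) : Prop where
  nonneg : ∀ A, MeasurableSet A → 0 ≤ μ A
  empty : μ ∅ = 0
  mono : ∀ A B, MeasurableSet A → MeasurableSet B → A ⊆ B → μ A ≤ μ B

/-- Absolute continuity of a vector capacity with respect to a capacity. -/
def AbsCont {X : Type u} [MeasurableSpace X] {E : Type v} [NormedAddCommGroup E]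
    (μ : Set X → E) (l : Set X → ℝ) : Prop :=
  ∀ ε : ℝ, 0 < ε → ∃ δ : ℝ, 0 < δ ∧ ∀ A, MeasurableSet A → l A < δ → ‖μ A‖ < ε

section

variable {E : Type v} [NormedAddCommGroup E] [Lattice E] [HasSolidNorm E] [IsOrderedAddMonoid E]
  [NormedSpace ℝ E] [PosSMulMono ℝ E]

theorem norm_mono {x y : E} (hx : 0 ≤ x) (hxy : x ≤ y) : ‖x‖ ≤ ‖y‖ := by
  apply norm_le_norm_of_abs_le_abs
  rwa [abs_of_nonneg hx, abs_of_nonneg (hx.trans hxy)]

theorem posPart_smul_le {c : ℝ} (hc : 0 ≤ c) (x : E) : (c • x) ⊔ 0 ≤ c • (x ⊔ 0) := by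
  apply sup_le
  · exact smul_le_smul_of_nonneg_left le_sup_left hc
  · exact smul_nonneg hc le_sup_right

/-- Every positive element has a positive norming functional. -/
theorem exists_norming (x : E) (hx : 0 ≤ x) :
    ∃ f : E →L[ℝ] ℝ, (∀ v, 0 ≤ v → 0 ≤ f v) ∧ ‖f‖ ≤ 1 ∧ f x = ‖x‖ := by
  classical
  by_cases hx0 : x = 0
  · exact ⟨0, fun v _ => by simp, by simp, by simp [hx0]⟩
  have hle : ∀ (c : ℝ), 0 < c → ∀ v : E, ‖(c • v) ⊔ 0‖ ≤ c * ‖v ⊔ 0‖ := by
    intro c hc v
    calc ‖(c • v) ⊔ 0‖ ≤ ‖c • (v ⊔ 0)‖ := norm_mono le_sup_right (posPart_smul_le hc.le v)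
      _ = c * ‖v ⊔ 0‖ := by rw [norm_smul, Real.norm_of_nonneg hc.le]
  obtain ⟨g, hg1, hg2⟩ := exists_extension_of_le_sublinear
    (LinearPMap.mkSpanSingleton (K := ℝ) x (‖x‖ : ℝ) hx0) (fun v => ‖v ⊔ 0‖)
    (by
      intro c hc v
      apply le_antisymm (hle c hc v)
      have h1 := hle c⁻¹ (inv_pos.2 hc) (c • v)
      rw [smul_smul, inv_mul_cancel₀ hc.ne', one_smul] at h1
      calc c * ‖v ⊔ 0‖ ≤ c * (c⁻¹ * ‖(c • v) ⊔ 0‖) := by gcongr
        _ = ‖(c • v) ⊔ 0‖ := by rw [← mul_assoc, mul_inv_cancel₀ hc.ne', one_mul])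
    (by
      intro v w
      refine (norm_mono le_sup_right ?_).trans (norm_add_le _ _)
      apply sup_le
      · exact add_le_add le_sup_left le_sup_left
      · exact add_nonneg le_sup_right le_sup_right)
    (by
      rintro ⟨v, hv⟩
      obtain ⟨c, rfl⟩ := Submodule.mem_span_singleton.1 hv
      have h0 : (LinearPMap.mkSpanSingleton (K := ℝ) x (‖x‖ : ℝ) hx0) ⟨c • x, hv⟩ = c • ‖x‖ :=
        LinearPMap.mkSpanSingleton'_apply x ‖x‖ _ c hv
      rw [h0]
      show c • ‖x‖ ≤ ‖(c • x) ⊔ 0‖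
      rcases le_or_gt 0 c with hc | hc
      · rw [sup_eq_left.2 (smul_nonneg hc hx), norm_smul, Real.norm_of_nonneg hc, smul_eq_mul]
      · refine le_trans ?_ (norm_nonneg _)
        rw [smul_eq_mul]
        exact mul_nonpos_of_nonpos_of_nonneg hc.le (norm_nonneg _))
  have hpos : ∀ v, 0 ≤ v → 0 ≤ g v := by
    intro v hv
    have h1 := hg2 (-v)
    have h2 : (-v) ⊔ (0 : E) = 0 := sup_eq_right.2 (neg_nonpos.2 hv)
    rw [h2, norm_zero, map_neg] at h1
    linarith
  have hsup : ∀ v : E, ‖v ⊔ 0‖ ≤ ‖v‖ := by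
    intro v
    apply norm_le_norm_of_abs_le_abs
    rw [abs_of_nonneg (le_sup_right : (0 : E) ≤ v ⊔ 0)]
    exact sup_le (le_abs_self v) (abs_nonneg v)
  have hbd : ∀ v, ‖g v‖ ≤ 1 * ‖v‖ := by
    intro v
    rw [one_mul, Real.norm_eq_abs, abs_le]
    constructor
    · have h1 := (hg2 (-v)).trans (hsup (-v))
      rw [map_neg, norm_neg] at h1
      linarith
    · exact (hg2 v).trans (hsup v)
  refine ⟨g.mkContinuous 1 hbd, hpos, g.mkContinuous_norm_le zero_le_one hbd, ?_⟩
  have h3 := hg1 ⟨x, Submodule.mem_span_singleton_self x⟩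
  have h4 : (LinearPMap.mkSpanSingleton (K := ℝ) x (‖x‖ : ℝ) hx0)
      ⟨x, Submodule.mem_span_singleton_self x⟩ = ‖x‖ :=
    LinearPMap.mkSpanSingleton'_apply_self (σ := RingHom.id ℝ) x (‖x‖ : ℝ) _ _
  rw [h4] at h3
  exact h3

/-- positive functionals of a supremum of positive elements -/
theorem apply_partialSups_le (f : E →L[ℝ] ℝ) (hf : ∀ v, 0 ≤ v → 0 ≤ f v) (x : ℕ → E)
    (hx : ∀ n, 0 ≤ x n) (k : ℕ) :
    f (partialSups x k) ≤ ∑ j ∈ Finset.range (k + 1), f (x j) := by
  have hmono : ∀ a b : E, a ≤ b → f a ≤ f b := by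
    intro a b hab
    have := hf (b - a) (sub_nonneg.2 hab)
    rw [map_sub] at this
    linarith
  induction k with
  | zero => simp
  | succ k ih =>
    rw [partialSups_add_one, Finset.sum_range_succ]
    have h0 : (0 : E) ≤ partialSups x k := (hx k).trans (le_partialSups x k)
    have h1 : partialSups x k ⊔ x (k + 1) ≤ partialSups x k + x (k + 1) := by
      apply sup_le
      · exact le_add_of_nonneg_right (hx _)
      · exact le_add_of_nonneg_left h0
    calc f (partialSups x k ⊔ x (k + 1)) ≤ f (partialSups x k + x (k + 1)) := hmono _ _ h1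
      _ = f (partialSups x k) + f (x (k + 1)) := map_add _ _ _
      _ ≤ _ := by linarith

/-- The key step: for every `ε > 0` there are a positive functional `f` and `δ > 0` such that
`0 ≤ x ≤ e` and `f x < δ` imply `‖x‖ < ε`. -/
theorem key (hE : OrderContinuousNorm E) (e : E) (ε : ℝ) (hε : 0 < ε) :
    ∃ f : E →L[ℝ] ℝ, (∀ v, 0 ≤ v → 0 ≤ f v) ∧ ∃ δ : ℝ, 0 < δ ∧
      ∀ x, 0 ≤ x → x ≤ e → f x < δ → ‖x‖ < ε := by
  classical
  by_contra hcon
  push Not at hcon
  -- the recursive step: a positive functional `F` gives an element and its norming functional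
  have hstep : ∀ (F : {F : E →L[ℝ] ℝ // ∀ v, 0 ≤ v → 0 ≤ F v}) (n : ℕ),
      ∃ (x : E) (f : E →L[ℝ] ℝ), 0 ≤ x ∧ x ≤ e ∧ F.1 x < (1 / 2) ^ n ∧ ε ≤ ‖x‖ ∧
        (∀ v, 0 ≤ v → 0 ≤ f v) ∧ ‖f‖ ≤ 1 ∧ f x = ‖x‖ := by
    intro F n
    obtain ⟨x, h1, h2, h3, h4⟩ := hcon F.1 F.2 ((1 / 2) ^ n) (by positivity)
    obtain ⟨f, h5, h6, h7⟩ := exists_norming x h1
    exact ⟨x, f, h1, h2, h3, h4, h5, h6, h7⟩
  choose xx ff h1 h2 h3 h4 h5 h6 h7 using hstep
  let FF : ℕ → {F : E →L[ℝ] ℝ // ∀ v, 0 ≤ v → 0 ≤ F v} := fun n =>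
    Nat.rec ⟨0, fun v _ => le_rfl⟩ (fun n F => ⟨F.1 + ff F n, fun v hv =>
      add_nonneg (F.2 v hv) (h5 F n v hv)⟩) n
  have hFF : ∀ n, (FF (n + 1)).1 = (FF n).1 + ff (FF n) n := fun n => rfl
  set x : ℕ → E := fun n => xx (FF n) n with hxdef
  set f : ℕ → E →L[ℝ] ℝ := fun n => ff (FF n) n with hfdef
  have hx0 : ∀ n, 0 ≤ x n := fun n => h1 _ _
  have hxe : ∀ n, x n ≤ e := fun n => h2 _ _
  have hf0 : ∀ n v, 0 ≤ v → 0 ≤ f n v := fun n v hv => h5 _ _ v hv
  have hf1 : ∀ n, ‖f n‖ ≤ 1 := fun n => h6 _ _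
  have hfx : ∀ n, ε ≤ f n (x n) := fun n => by
    have := h7 (FF n) n
    rw [hfdef]
    show ε ≤ ff (FF n) n (xx (FF n) n)
    rw [this]
    exact h4 _ _
  have hFle : ∀ m i, i < m → ∀ v, 0 ≤ v → f i v ≤ (FF m).1 v := by
    intro m
    induction m with
    | zero => intro i hi; omega
    | succ m ih =>
      intro i hi v hv
      rw [hFF, add_apply]
      rcases Nat.lt_succ_iff_lt_or_eq.1 hi with hi | rfl
      · have := ih i hi v hv
        have := hf0 m v hv
        have h9 : f m v = ff (FF m) m v := rfl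
        linarith
      · have := (FF i).2 v hv
        have h9 : f i v = ff (FF i) i v := rfl
        linarith
  have hfsmall : ∀ m i, i < m → f i (x m) ≤ (1 / 2) ^ m := fun m i hi =>
    (hFle m i hi _ (hx0 m)).trans (h3 (FF m) m).le
  -- the suprema of the tails
  have hy : ∀ n, ∃ y, Tendsto (fun k => partialSups (fun j => x (n + j)) k) atTop (𝓝 y) := by
    intro n
    apply hE _ (Or.inl (partialSups (fun j => x (n + j))).monotone)
    · refine ⟨e, ?_⟩
      rintro _ ⟨k, rfl⟩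
      exact partialSups_le _ _ _ fun j _ => hxe _
    · refine ⟨0, ?_⟩
      rintro _ ⟨k, rfl⟩
      exact (hx0 (n + k)).trans (le_partialSups (fun j => x (n + j)) k)
  choose y hy using hy
  have hge : ∀ n k, partialSups (fun j => x (n + j)) k ≤ y n := fun n k =>
    (partialSups (fun j => x (n + j))).monotone.ge_of_tendsto (hy n) k
  have hxy : ∀ n, x n ≤ y n := by
    intro n
    have := hge n 0
    simpa using this
  have hmono : ∀ (f : E →L[ℝ] ℝ), (∀ v, 0 ≤ v → 0 ≤ f v) → ∀ a b : E, a ≤ b → f a ≤ f b := by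
    intro f hf a b hab
    have := hf (b - a) (sub_nonneg.2 hab)
    rw [map_sub] at this
    linarith
  have hfy : ∀ n i, i < n → f i (y n) ≤ 2 * (1 / 2) ^ n := by
    intro n i hi
    have h8 : Tendsto (fun k => f i (partialSups (fun j => x (n + j)) k)) atTop (𝓝 (f i (y n))) :=
      ((f i).continuous.tendsto _).comp (hy n)
    refine le_of_tendsto' h8 fun k => ?_
    refine (apply_partialSups_le (f i) (hf0 i) (fun j => x (n + j)) (fun j => hx0 _) k).trans ?_
    calc ∑ j ∈ Finset.range (k + 1), f i (x (n + j))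
        ≤ ∑ j ∈ Finset.range (k + 1), (1 / 2 : ℝ) ^ n * (1 / 2) ^ j := by
          apply Finset.sum_le_sum
          intro j _
          rw [← pow_add]
          exact hfsmall (n + j) i (by omega)
      _ = (1 / 2 : ℝ) ^ n * ∑ j ∈ Finset.range (k + 1), (1 / 2 : ℝ) ^ j := by
          rw [Finset.mul_sum]
      _ ≤ (1 / 2 : ℝ) ^ n * 2 := by
          gcongr
          exact sum_geometric_two_le _
      _ = _ := by ring
  have hyanti : Antitone y := by
    apply antitone_nat_of_succ_le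
    intro n
    refine le_of_tendsto' (hy (n + 1)) fun k => ?_
    apply partialSups_le
    intro j hj
    have h8 : x (n + (j + 1)) ≤ partialSups (fun j => x (n + j)) (j + 1) :=
      le_partialSups (fun j => x (n + j)) (j + 1)
    have h9 : n + 1 + j = n + (j + 1) := by omega
    rw [h9]
    exact h8.trans (hge n _)
  have hy0 : ∀ n, 0 ≤ y n := fun n => (hx0 n).trans (hxy n)
  obtain ⟨z, hz⟩ := hE y (Or.inr hyanti) ⟨y 0, by rintro _ ⟨n, rfl⟩; exact hyanti (Nat.zero_le n)⟩
    ⟨0, by rintro _ ⟨n, rfl⟩; exact hy0 n⟩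
  have hzy : ∀ n, z ≤ y n := fun n => hyanti.le_of_tendsto hz n
  have hz0 : 0 ≤ z := ge_of_tendsto' hz hy0
  have hfz : ∀ i, f i z ≤ 0 := by
    intro i
    have h8 : Tendsto (fun n : ℕ => 2 * (1 / 2 : ℝ) ^ n) atTop (𝓝 (2 * 0)) :=
      (tendsto_pow_atTop_nhds_zero_of_lt_one (by norm_num) (by norm_num)).const_mul 2
    rw [mul_zero] at h8
    refine ge_of_tendsto h8 ?_
    filter_upwards [eventually_gt_atTop i] with n hn
    exact (hmono (f i) (hf0 i) _ _ (hzy n)).trans (hfy n i hn)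
  have hfin : ∀ n, ε ≤ ‖y n - z‖ := by
    intro n
    calc ε ≤ f n (x n) := hfx n
      _ ≤ f n (y n) := hmono _ (hf0 n) _ _ (hxy n)
      _ ≤ f n (y n) - f n z := by linarith [hfz n]
      _ = f n (y n - z) := (map_sub _ _ _).symm
      _ ≤ ‖f n (y n - z)‖ := le_abs_self _
      _ ≤ ‖f n‖ * ‖y n - z‖ := (f n).le_opNorm _
      _ ≤ 1 * ‖y n - z‖ := by gcongr; exact hf1 n
      _ = _ := one_mul _
  have h8 : Tendsto (fun n => ‖y n - z‖) atTop (𝓝 0) := tendsto_iff_norm_sub_tendsto_zero.1 hz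
  have h9 := ge_of_tendsto' h8 hfin
  linarith

/-- One functional for the whole order interval `[0, e]`. -/
theorem exists_control (hE : OrderContinuousNorm E) (e : E) :
    ∃ f : E →L[ℝ] ℝ, (∀ v, 0 ≤ v → 0 ≤ f v) ∧ ∀ ε : ℝ, 0 < ε → ∃ δ : ℝ, 0 < δ ∧
      ∀ x, 0 ≤ x → x ≤ e → f x < δ → ‖x‖ < ε := by
  classical
  choose f hf δ hδ hfδ using fun n : ℕ => key hE e (1 / ((n : ℝ) + 1)) (by positivity)
  set c : ℕ → ℝ := fun n => (1 / 2) ^ n / (1 + ‖f n‖) with hc
  have hc0 : ∀ n, 0 < c n := fun n => by rw [hc]; positivity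
  have hcn : ∀ n, ‖c n • f n‖ ≤ (1 / 2) ^ n := by
    intro n
    rw [norm_smul, Real.norm_of_nonneg (hc0 n).le, hc]
    show (1 / 2) ^ n / (1 + ‖f n‖) * ‖f n‖ ≤ (1 / 2) ^ n
    rw [div_mul_eq_mul_div, div_le_iff₀ (by positivity)]
    have : (0 : ℝ) ≤ (1 / 2) ^ n := by positivity
    nlinarith [norm_nonneg (f n)]
  have hsum : Summable fun n => c n • f n :=
    Summable.of_norm_bounded summable_geometric_two hcn
  have happ : ∀ v, HasSum (fun n => c n * f n v) ((∑' n, c n • f n) v) := by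
    intro v
    have h1 := hsum.hasSum.mapL (ContinuousLinearMap.apply ℝ ℝ v)
    simpa using h1
  refine ⟨∑' n, c n • f n, fun v hv => (happ v).nonneg fun n =>
    mul_nonneg (hc0 n).le (hf n v hv), fun ε hε => ?_⟩
  obtain ⟨n, hn⟩ := exists_nat_one_div_lt hε
  refine ⟨c n * δ n, mul_pos (hc0 n) (hδ n), fun x hx hxe hlt => ?_⟩
  refine lt_trans (hfδ n x hx hxe ?_) hn
  have h1 : c n * f n x ≤ (∑' n, c n • f n) x :=
    le_hasSum (happ x) n fun m _ => mul_nonneg (hc0 m).le (hf m x hx)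
  have h2 : c n * f n x < c n * δ n := h1.trans_lt hlt
  exact lt_of_mul_lt_mul_left h2 (hc0 n).le

end

/-- **Control functionals exist.** Let `E` be a Banach lattice with order continuous norm and let
`μ` be a vector capacity with values in `E`, on any measurable space. Then there is a positive
functional `f` in the dual of `E` such that `f ∘ μ` is a capacity and `μ` is absolutely continuous
with respect to `f ∘ μ`. (No continuity of `μ` is needed.) -/
theorem result {X : Type u} [MeasurableSpace X] {E : Type v} [NormedAddCommGroup E] [Lattice E]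
    [HasSolidNorm E] [IsOrderedAddMonoid E] [NormedSpace ℝ E] [PosSMulMono ℝ E] [CompleteSpace E]
    (hE : OrderContinuousNorm E) (μ : Set X → E) (hμ : IsCapacity μ) :
    ∃ f : E →L[ℝ] ℝ, (∀ v, 0 ≤ v → 0 ≤ f v) ∧ IsCapacity (fun A => f (μ A)) ∧
      AbsCont μ (fun A => f (μ A)) := by
  obtain ⟨f, hf, h⟩ := exists_control hE (μ univ)
  refine ⟨f, hf, ⟨fun A hA => hf _ (hμ.nonneg A hA), by rw [hμ.empty, map_zero], ?_⟩, ?_⟩
  · intro A B hA hB hAB
    have := hf (μ B - μ A) (sub_nonneg.2 (hμ.mono A B hA hB hAB))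
    rw [map_sub] at this
    linarith
  · intro ε hε
    obtain ⟨δ, hδ, h2⟩ := h ε hε
    exact ⟨δ, hδ, fun A hA hlt => h2 _ (hμ.nonneg A hA)
      (hμ.mono A univ hA MeasurableSet.univ (subset_univ A)) hlt⟩

end Pool.Agent.Results.MP_e24518_an.ControlFunctionalH32
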